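import Pool.Agent.N820.RS.Nat

/-!
# Stark's conjecture for real quadratic ray class fields: a local-global principle

Let `K` be a real quadratic field, `𝔪` a nonzero proper ideal, `S` the set of the two infinite places
and the primes which divide `𝔪`, and `H / K` a finite abelian extension, for instance the ray class
field of modulus `𝔪 ∞₂`. The assertion of the problem for `H` (units `ε_A = exp (- 2 ζ'(0, A))`,
conjugate over `K`, of absolute value `1` at all embeddings above `∞₂`; there is no condition on
square roots) is the conjunction of its `l`-parts (`l` prime): some multiple by an integer prime to `l`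
holds. The `l`-part for `H` follows from the `l`-parts for the fields `L` between `K` and `H` for
which `Gal(L/K)` is the product of an `l`-group and a cyclic group of order prime to `l`.

All this is true for an arbitrary number field `K` with an embedding `s₁` in `ℝ` and any finite set
`S` of places.

The proof is the one of helper598 for Tate's form (`MP_ca56d1_nt.LocalGlobal`), applied to the group
of the functions `φ` on `Gal(H/K)` for which the numbers `exp (- 2 φ(ρ))` are the conjugates of a unit
with the condition on the absolute values.
-/

set_option autoImplicit false

namespace Pool.Agent.Results.MP_343f43_nt.LocalGlobal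

open NumberField IsDedekindDomain Pool.Agent.N598.ST Pool.Agent.N820.RS

/-- Let `K` be a number field, `S` a finite set of places of `K`, `s₁` an embedding of `K` in `ℝ`,
and let `H / K` be abelian. (On the page `K` is real quadratic, `s₁` the identity, `S` consists of
the infinite places and the primes dividing `𝔪`, and `H` is the ray class field of modulus `𝔪 ∞₂`.)
1. For every prime `l`: if the `l`-part of the assertion holds for all `L / K` which embed in `H`
  and whose Galois group is the product of an `l`-group and a cyclic group of order prime to `l`,
  then it holds for `H / K`.
2. If this is so for all primes `l`, then the assertion holds for `H / K`.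
3. The assertion for `H / K` implies all its `l`-parts. -/
theorem result (K : Type) [Field K] [NumberField K] (S : Finset (Place K)) (s₁ : K →+* ℝ)
    (H : Type) [Field H] [NumberField H] [Algebra K H] [IsAbelianGalois K H] :
    (∀ l : ℕ, l.Prime →
      (∀ (L : Type) [Field L] [NumberField L] [Algebra K L], Nonempty (L →ₐ[K] H) →
        CyclicOutside l Gal(L/K) → UPart K L l S s₁) → UPart K H l S s₁) ∧
    ((∀ l : ℕ, l.Prime → ∀ (L : Type) [Field L] [NumberField L] [Algebra K L],
      Nonempty (L →ₐ[K] H) → CyclicOutside l Gal(L/K) → UPart K L l S s₁) → UMul K H 1 S s₁) ∧
    (UMul K H 1 S s₁ → ∀ l : ℕ, l.Prime → UPart K H l S s₁) := by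
  obtain ⟨ha, hb⟩ := unit_local_global (K := K) (H := H) S s₁
  exact ⟨ha, fun h => hb.2 fun l hl => ha l hl (h l hl), hb.1⟩

end Pool.Agent.Results.MP_343f43_nt.LocalGlobal
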