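import Pool.Agent.N739.SU.Pages

/-!
# The numbers `exp(-2 ζ'(0, A))` of Stark's conjecture from the primes of the ray classes

Let `K` be a real quadratic field with the real embeddings `σ₁`, `σ₂` (the places `∞₁`, `∞₂`; the theorem
below allows any number field with two different real embeddings), `𝔪` an integral ideal, `𝔪 ≠ 0, 𝒪_K`, `G = Cl_{𝔪∞₂}` the ray class group of the problem and `cl` the map from the
ideals prime to `𝔪` to `G`.  For `γ > π/2`, `T > 0` and a class `B` let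

`P_T(B) = ∑ (1/k) e^{iγ k log N(v) / T} / Γ(1 + k log N(v) / T)`,

the sum over all primes `v ∤ 𝔪` and all `k ≥ 1` with `v^k ∈ B`.  This converges absolutely, and the weight
of every single prime power `v^k` tends to `1/k` as `T → ∞`.  Let `Z_T(A)` be the coefficient of `A` of the
exponential `exp(∑_B P_T(B) [B])` in the group ring `ℂ[G]`, that is,

`Z_T(A) = |G|⁻¹ ∑_χ χ(A)⁻¹ exp(∑_B χ(B) P_T(B))`.

We prove, without any hypothesis, `ζ(0, A) = 0` and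

`ζ'(0, A) = T e^{-Λ} Z_T(A) + O(1/T)` (`T → ∞`), `Λ = ∫_0^∞ (e^{-u} - e^{iγu} / Γ(1 + u)) du / u`,

for the partial zeta function `ζ(s, A)` of every class, and therefore
`exp(-2 ζ'(0, A)) = lim exp(-2 T e^{-Λ} Z_T(A))`.  So the numbers which are units `ε_A` by Stark's conjecture
are limits of expressions in which only the norms of the primes of `K` and their ray classes occur, no
analytic continuation; and for real numbers `ε_A` the equations 1 of the problem hold for all classes if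
and only if the limit is `ε_A` for all classes along one sequence `T_n → ∞`.
-/

set_option autoImplicit false

open scoped Classical

namespace Pool.Agent.Results.MP_343f43_nt.UnitsFromPrimes

open NumberField IsDedekindDomain Filter Topology

section defs

variable {K : Type} [Field K] [NumberField K]

/-- the ideals prime to `𝔪` -/
def PrimeTo (𝔪 : Ideal (𝓞 K)) : Submonoid (Ideal (𝓞 K)) where
  carrier := {𝔞 | IsCoprime 𝔞 𝔪}
  mul_mem' hx hy := IsCoprime.mul_left hx hy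
  one_mem' := isCoprime_one_left

/-- `G` is the ray class group `Cl_{𝔪∞₂}` and `cl` maps an integral ideal prime to `𝔪` to its class:
`𝔞` and `𝔟` are in the same class if and only if `x 𝔞 = y 𝔟` with `x ≡ y ≡ 1 mod 𝔪` and
`σ₂(x), σ₂(y) > 0`. -/
structure IsRayClass (𝔪 : Ideal (𝓞 K)) (σ₂ : K →+* ℝ) {G : Type} [CommGroup G]
    (cl : PrimeTo 𝔪 →* G) : Prop where
  surj : Function.Surjective cl
  eq_iff : ∀ 𝔞 𝔟 : PrimeTo 𝔪, cl 𝔞 = cl 𝔟 ↔ ∃ x y : 𝓞 K, x - 1 ∈ 𝔪 ∧ y - 1 ∈ 𝔪 ∧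
    0 < σ₂ (x : K) ∧ 0 < σ₂ (y : K) ∧
      Ideal.span {x} * (𝔞 : Ideal (𝓞 K)) = Ideal.span {y} * (𝔟 : Ideal (𝓞 K))

variable {𝔪 : Ideal (𝓞 K)} {G : Type} [CommGroup G]

/-- the partial zeta function `ζ(s, A) = ∑ N(𝔞)^{-s}`, over the integral ideals `𝔞` in the class `A` -/
noncomputable def zeta (cl : PrimeTo 𝔪 →* G) (A : G) (s : ℂ) : ℂ :=
  ∑' 𝔞 : Ideal (𝓞 K), if (∃ h : IsCoprime 𝔞 𝔪, cl ⟨𝔞, h⟩ = A) then
    ((Ideal.absNorm 𝔞 : ℕ) : ℂ) ^ (-s) else 0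

/-- `Z` is the continuation of `ζ(s, A)`: meromorphic in the plane, equal to it for `Re s > 1` -/
def IsContinuation (cl : PrimeTo 𝔪 →* G) (A : G) (Z : ℂ → ℂ) : Prop :=
  (∀ s, MeromorphicAt Z s) ∧ ∀ s : ℂ, 1 < s.re → Z s = zeta cl A s

/-- the weight of the prime power `v^k`, `x = (v, k - 1)`:
`(1/k) e^{iγ k log N(v) / T} / Γ(1 + k log N(v) / T)` -/
noncomputable def weight (γ T : ℝ) (x : HeightOneSpectrum (𝓞 K) × ℕ) : ℂ :=
  1 / (x.2 + 1) * (Complex.exp ((γ * ((x.2 + 1) * Real.log (Ideal.absNorm x.1.asIdeal) / T) : ℝ) *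
    Complex.I) / (Real.Gamma (1 + (x.2 + 1) * Real.log (Ideal.absNorm x.1.asIdeal) / T) : ℂ))

/-- the prime power `v^k`, `x = (v, k - 1)`, is prime to `𝔪` and lies in the class `B` -/
def InClass (cl : PrimeTo 𝔪 →* G) (B : G) (x : HeightOneSpectrum (𝓞 K) × ℕ) : Prop :=
  ∃ h : IsCoprime x.1.asIdeal 𝔪, cl ⟨x.1.asIdeal, h⟩ ^ (x.2 + 1) = B

/-- `P_T(B)` -/
noncomputable def P (cl : PrimeTo 𝔪 →* G) (γ T : ℝ) (B : G) : ℂ :=
  ∑' x : HeightOneSpectrum (𝓞 K) × ℕ, if InClass cl B x then weight γ T x else 0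

/-- `Z_T(A)`, the coefficient of `A` of `exp(∑_B P_T(B) [B])` -/
noncomputable def Z (cl : PrimeTo 𝔪 →* G) (γ T : ℝ) (A : G) : ℂ :=
  (Nat.card G : ℂ)⁻¹ * ∑ᶠ χ : G →* ℂˣ, ((χ A⁻¹ : ℂˣ) : ℂ) *
    Complex.exp (∑ᶠ B : G, ((χ B : ℂˣ) : ℂ) * P cl γ T B)

/-- `Λ = ∫_0^∞ (e^{-u} - e^{iγu} / Γ(1 + u)) du / u` -/
noncomputable def Lam (γ : ℝ) : ℂ := ∫ u in Set.Ioi (0 : ℝ),
  (Complex.exp (-(u : ℂ)) - Complex.exp ((γ * u : ℝ) * Complex.I) * ((Real.Gamma (1 + u))⁻¹ : ℝ)) / u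

/-- `T e^{-Λ} Z_T(A)` -/
noncomputable def approx (cl : PrimeTo 𝔪 →* G) (γ T : ℝ) (A : G) : ℂ :=
  (T : ℂ) * Complex.exp (-Lam γ) * Z cl γ T A

end defs

/-- **Main theorem.**  Let `K` be a number field with two different real embeddings `σ₁`, `σ₂` (for
instance a real quadratic field, the case of the problem), `𝔪 ≠ 0, 𝒪_K` an integral ideal,
`G = Cl_{𝔪∞₂}` and `γ > π/2`.
* The sums `P_T(B)` converge absolutely.
* Every partial zeta function has a continuation, and there are real numbers `D(A) = ζ'(0, A)` with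
  `Z(s) / s → D(A)` as `s → 0` for the continuation `Z` of `ζ(s, A)` (so that `ζ(0, A) = 0`) and
  `T e^{-Λ} Z_T(A) = D(A) + O(1/T)`.
* `exp(-2 T e^{-Λ} Z_T(A)) = exp(-2 D(A)) + O(1/T)`.
* For real numbers `ε_A`: `ε_A = exp(-2 ζ'(0, A))` for all `A` if and only if there is a sequence
  `T_n → ∞` along which `exp(-2 T e^{-Λ} Z_T(A)) → ε_A` for all `A`. -/
theorem result (K : Type) [Field K] [NumberField K] (σ₁ σ₂ : K →+* ℝ) (hσ : σ₁ ≠ σ₂)
    (𝔪 : Ideal (𝓞 K)) (hbot : 𝔪 ≠ ⊥) (htop : 𝔪 ≠ ⊤)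
    (G : Type) [CommGroup G] [Finite G] (cl : PrimeTo 𝔪 →* G) (hcl : IsRayClass 𝔪 σ₂ cl)
    (γ : ℝ) (hγ : Real.pi / 2 < γ) :
    (∀ T : ℝ, 0 < T → ∀ B : G, Summable fun x => ‖if InClass cl B x then weight γ T x else 0‖) ∧
    ∃ D : G → ℝ, (∀ A : G, (∃ Z, IsContinuation cl A Z) ∧
      (∀ Z, IsContinuation cl A Z → Tendsto (fun s : ℂ => Z s / s) (𝓝[≠] 0) (𝓝 (D A : ℂ))) ∧
      (fun T : ℝ => approx cl γ T A - D A) =O[atTop] (fun T : ℝ => 1 / T) ∧
      (fun T : ℝ => Complex.exp (-2 * approx cl γ T A) - Complex.exp (-2 * D A)) =O[atTop]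
        (fun T : ℝ => 1 / T)) ∧
      ∀ ε : G → ℝ, (∀ A, ε A = Real.exp (-2 * D A)) ↔
        ∃ t : ℕ → ℝ, Tendsto t atTop atTop ∧
          ∀ A, Tendsto (fun n => Complex.exp (-2 * approx cl γ (t n) A)) atTop (𝓝 (ε A : ℂ)) := by
  have hT : Pool.Agent.N739.SU.TrivAt {σ₂} (𝔮 := 𝔪) cl := by
    intro x hx hs
    have h1 : 0 < σ₂ (x : K) := hs σ₂ rfl
    have h2 : cl ⟨Ideal.span {x}, Pool.Agent.Y773.IQ.cop_one hx⟩ = cl 1 := by
      refine (hcl.eq_iff _ _).2 ⟨1, x, by simp, hx, by simp, h1, ?_⟩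
      rw [Ideal.span_singleton_one, ← Ideal.one_eq_top, one_mul]
      exact (mul_one _).symm
    exact h2.trans (map_one cl)
  obtain ⟨w, hw⟩ := Pool.Agent.N739.SU.off_real hσ
  have hr : Pool.Agent.N739.SU.OrdGe htop (𝔮 := 𝔪) cl 1 := by
    have h1 := hT.ordGe hbot htop {w} (fun v hv => by rw [Finset.mem_singleton.1 hv]; exact hw)
    rwa [Finset.card_singleton] at h1
  obtain ⟨D₀, hD₀⟩ := Pool.Agent.N739.SU.main hbot htop hT.triv hr hγ
  obtain ⟨D, hDD⟩ : ∃ D : G → ℝ, ∀ A, (D A : ℂ) = D₀ A :=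
    ⟨fun A => (D₀ A).re, fun A => Pool.Agent.N739.SU.real_of (hD₀ A).1 (hD₀ A).2.1⟩
  have hD := hD₀
  simp only [← hDD] at hD
  have hO : ∀ A, (fun T : ℝ => approx cl γ T A - D A) =O[atTop] (fun T : ℝ => 1 / T) := by
    intro A
    refine (hD A).2.2.congr_left fun T => ?_
    rw [pow_one]
    rfl
  have hE : ∀ A, (fun T : ℝ => Complex.exp (-2 * approx cl γ T A) - Complex.exp (-2 * D A))
      =O[atTop] (fun T : ℝ => 1 / T) := by
    intro A
    refine Pool.Agent.N739.SU.exp_isBigO (((hO A).const_mul_left (-2)).congr_left fun T => ?_)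
    ring
  refine ⟨fun T hT0 B => Pool.Agent.N739.SU.summ hbot htop hT.triv γ hT0 B, D, fun A => ⟨?_, ?_, hO A, hE A⟩,
    fun ε => ?_⟩
  · obtain ⟨Z, hZ⟩ := (hD A).1
    exact ⟨Z, hZ⟩
  · intro Z hZ
    refine ((hD A).2.1 Z hZ).congr fun s => ?_
    rw [pow_one, div_eq_inv_mul]
  · rw [← Pool.Agent.N739.SU.seq_lim (f := fun A T => Complex.exp (-2 * approx cl γ T A))
      (fun A => Pool.Agent.N739.SU.lim_of_O (hE A)) (fun A => (ε A : ℂ))]
    refine forall_congr' fun A => ?_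
    have h1 : Complex.exp (-2 * (D A : ℂ)) = ((Real.exp (-2 * D A) : ℝ) : ℂ) := by push_cast; ring_nf
    rw [h1]
    norm_cast

end Pool.Agent.Results.MP_343f43_nt.UnitsFromPrimes
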